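import Pool.Agent.helper34.NTA.Spec
set_option autoImplicit false
namespace Pool.Agent.NTA
open Equiv

/-- the words -/
def QGR_B : Type := {w : List (Fin 5) // w.length ≤ 300 ∧ w.IsChain (· ≠ ·)}

/-- the map on lists -/
def QGR_f (i : Fin 5) : List (Fin 5) → List (Fin 5)
  | [] => [i]
  | j :: w => if j = i then w else if w.length < 299 then i :: j :: w else j :: w

theorem QGR_cons (i j : Fin 5) (w : List (Fin 5)) :
    QGR_f i (j :: w) = if j = i then w else if w.length < 299 then i :: j :: w else j :: w := rfl

theorem QGR_mem (i : Fin 5) (w : List (Fin 5)) (h : w.length ≤ 300 ∧ w.IsChain (· ≠ ·)) :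
    (QGR_f i w).length ≤ 300 ∧ (QGR_f i w).IsChain (· ≠ ·) := by
  cases w with
  | nil => simp [QGR_f]
  | cons j w =>
    rw [QGR_cons]
    by_cases h1 : j = i
    · rw [if_pos h1]
      have h2 := h.1
      simp only [List.length_cons] at h2
      exact ⟨by omega, h.2.tail⟩
    · rw [if_neg h1]
      by_cases h2 : w.length < 299
      · rw [if_pos h2]
        refine ⟨by simp only [List.length_cons]; omega, ?_⟩
        exact List.isChain_cons_cons.2 ⟨fun h3 => h1 h3.symm, h.2⟩
      · rw [if_neg h2]
        exact h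

theorem QGR_inv (i : Fin 5) (w : List (Fin 5)) (h : w.length ≤ 300 ∧ w.IsChain (· ≠ ·)) :
    QGR_f i (QGR_f i w) = w := by
  cases w with
  | nil => simp [QGR_f]
  | cons j w =>
    by_cases h1 : j = i
    · subst h1
      have h3 : QGR_f j (j :: w) = w := by simp [QGR_f]
      rw [h3]
      have h2 := h.1
      simp only [List.length_cons] at h2
      cases w with
      | nil => simp [QGR_f]
      | cons k w =>
        have h4 : j ≠ k := (List.isChain_cons_cons.1 h.2).1
        simp only [List.length_cons] at h2
        rw [QGR_cons, if_neg (fun h5 : k = j => h4 h5.symm), if_pos (by omega)]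
    · by_cases h2 : w.length < 299
      · have h3 : QGR_f i (j :: w) = i :: j :: w := by
          rw [QGR_cons, if_neg h1, if_pos h2]
        rw [h3]
        simp [QGR_f]
      · have h3 : QGR_f i (j :: w) = j :: w := by
          rw [QGR_cons, if_neg h1, if_neg h2]
        rw [h3, h3]

/-- the permutation -/
def QGR_r (i : Fin 5) : Perm QGR_B where
  toFun w := ⟨QGR_f i w.1, QGR_mem i w.1 w.2⟩
  invFun w := ⟨QGR_f i w.1, QGR_mem i w.1 w.2⟩
  left_inv w := Subtype.ext (QGR_inv i w.1 w.2)
  right_inv w := Subtype.ext (QGR_inv i w.1 w.2)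

theorem QGR_fin : Finite QGR_B := by
  have h1 : {w : List (Fin 5) | w.length ≤ 300}.Finite := List.finite_length_le (Fin 5) 300
  have h2 : {w : List (Fin 5) | w.length ≤ 300 ∧ w.IsChain (· ≠ ·)}.Finite := h1.subset (fun w hw => hw.1)
  exact h2.to_subtype

theorem QGR_act : ∀ (w : List (Fin 5)), w.IsChain (· ≠ ·) → w.length ≤ 300 →
    (((w.map QGR_r).prod : Perm QGR_B) ⟨[], by simp⟩).1 = w := by
  intro w
  induction w with
  | nil => intro _ _; rfl
  | cons a w ih =>
    intro h1 h2
    have h3 := ih h1.tail (by simp only [List.length_cons] at h2; omega)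
    rw [List.map_cons, List.prod_cons, Perm.mul_apply]
    change QGR_f a (((w.map QGR_r).prod : Perm QGR_B) ⟨[], by simp⟩).1 = a :: w
    rw [h3]
    cases w with
    | nil => rfl
    | cons b w =>
      have h4 : a ≠ b := (List.isChain_cons_cons.1 h1).1
      simp only [List.length_cons] at h2
      rw [QGR_cons, if_neg (fun h5 : b = a => h4 h5.symm), if_pos (by omega)]

theorem QGR : QGR_stmt := by
  have := QGR_fin
  refine ⟨Perm QGR_B, inferInstance, inferInstance, QGR_r, ?_, ?_⟩
  · intro i
    apply Equiv.ext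
    intro w
    exact Subtype.ext (QGR_inv i w.1 w.2)
  · intro w h1 h2 h3 h4
    have h5 := QGR_act w h2 h3
    rw [h4] at h5
    exact h1 h5.symm

end Pool.Agent.NTA
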