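import Pool.Agent.helper34.NTA.Spec
set_option autoImplicit false
namespace Pool.Agent.NTA
open Equiv

/-- a ray which stays on its arc goes straight on -/
theorem WLK_str {X : Type} (A : ArcFamily X) (σ : Perm A.Ray)
    (hσ : ∀ r r' : A.Ray, σ.SameCycle r r' ↔ r.p = r'.p) (h2 : ∀ x, 2 ≤ A.len x) (e : A.Ray)
    (he : (σ e).x = e.x) : (σ e).i = e.i ∧ (σ e).b = !e.b := by
  have h1 : (σ e).p = e.p := (hσ _ _).1 (Perm.sameCycle_apply_left.2 (Perm.SameCycle.refl σ e))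
  have h3 : (σ e).i = e.i := ray_i he h1
  refine ⟨h3, ?_⟩
  by_contra hb
  have h4 : (σ e).b = e.b := by
    cases h5 : (σ e).b <;> cases h6 : e.b <;> simp [h5, h6] at hb ⊢
  have h7 : σ e = e := ArcFamily.Ray.ext he h3 h4
  obtain ⟨r, hr1, hr2⟩ := other_ray A h2 e
  obtain ⟨n, hn⟩ := (hσ e r).2 hr2.symm
  rw [Perm.zpow_apply_eq_self_of_apply_eq_self h7] at hn
  rw [hn] at hr1
  exact hr1 rfl

theorem WLK_flip {X : Type} (A : ArcFamily X) (r : A.Ray) : (A.flip r).x = r.x ∧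
    (A.flip r).i = (bif r.b then r.i + 1 else r.i - 1) ∧ (A.flip r).b = !r.b := ⟨rfl, rfl, rfl⟩

theorem WLK_pos {X : Type} (A : ArcFamily X) (σ : Perm A.Ray)
    (hσ : ∀ r r' : A.Ray, σ.SameCycle r r' ↔ r.p = r'.p) (h2 : ∀ x, 2 ≤ A.len x) (a : A.Ray)
    (hb : (σ a).b = true) (u : ℕ) :
    (∀ v, 1 ≤ v → v < u + 1 → (σ (((A.flip * σ) ^ v) a)).x = (((A.flip * σ) ^ v) a).x) →
    (((A.flip * σ) ^ (u + 1)) a).x = (σ a).x ∧ (((A.flip * σ) ^ (u + 1)) a).i = (σ a).i + (u + 1) ∧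
      (((A.flip * σ) ^ (u + 1)) a).b = false := by
  induction u with
  | zero =>
    intro _
    have h1 : ((A.flip * σ) ^ (0 + 1)) a = A.flip (σ a) := by rw [zero_add, pow_one]; rfl
    rw [h1]
    obtain ⟨h3, h4, h5⟩ := WLK_flip A (σ a)
    rw [hb] at h4 h5
    exact ⟨h3, h4, h5⟩
  | succ u ih =>
    intro h
    obtain ⟨h3, h4, h5⟩ := ih (fun v hv1 hv2 => h v hv1 (by omega))
    have h1 : ((A.flip * σ) ^ (u + 1 + 1)) a = A.flip (σ (((A.flip * σ) ^ (u + 1)) a)) := by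
      rw [pow_succ', Perm.mul_apply, Perm.mul_apply]
    have h6 := h (u + 1) (by omega) (by omega)
    obtain ⟨h7, h8⟩ := WLK_str A σ hσ h2 _ h6
    rw [h1]
    obtain ⟨h9, h10, h11⟩ := WLK_flip A (σ (((A.flip * σ) ^ (u + 1)) a))
    rw [h8, h5] at h10 h11
    refine ⟨by rw [h9, h6, h3], ?_, h11⟩
    rw [h10]
    change (σ (((A.flip * σ) ^ (u + 1)) a)).i + 1 = _
    rw [h7, h4]
    omega

theorem WLK_neg {X : Type} (A : ArcFamily X) (σ : Perm A.Ray)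
    (hσ : ∀ r r' : A.Ray, σ.SameCycle r r' ↔ r.p = r'.p) (h2 : ∀ x, 2 ≤ A.len x) (a : A.Ray)
    (hb : (σ a).b = false) (u : ℕ) :
    (∀ v, 1 ≤ v → v < u + 1 → (σ (((A.flip * σ) ^ v) a)).x = (((A.flip * σ) ^ v) a).x) →
    (((A.flip * σ) ^ (u + 1)) a).x = (σ a).x ∧ (((A.flip * σ) ^ (u + 1)) a).i + (u + 1) = (σ a).i ∧
      (((A.flip * σ) ^ (u + 1)) a).b = true := by
  induction u with
  | zero =>
    intro _
    have h1 : ((A.flip * σ) ^ (0 + 1)) a = A.flip (σ a) := by rw [zero_add, pow_one]; rfl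
    rw [h1]
    obtain ⟨h3, h4, h5⟩ := WLK_flip A (σ a)
    rw [hb] at h4 h5
    have h6 := (σ a).ok.2
    rw [hb] at h6
    change 1 ≤ (σ a).i + 0 at h6
    change (A.flip (σ a)).i = (σ a).i - 1 at h4
    refine ⟨h3, by omega, h5⟩
  | succ u ih =>
    intro h
    obtain ⟨h3, h4, h5⟩ := ih (fun v hv1 hv2 => h v hv1 (by omega))
    have h1 : ((A.flip * σ) ^ (u + 1 + 1)) a = A.flip (σ (((A.flip * σ) ^ (u + 1)) a)) := by
      rw [pow_succ', Perm.mul_apply, Perm.mul_apply]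
    have h6 := h (u + 1) (by omega) (by omega)
    obtain ⟨h7, h8⟩ := WLK_str A σ hσ h2 _ h6
    rw [h1]
    obtain ⟨h9, h10, h11⟩ := WLK_flip A (σ (((A.flip * σ) ^ (u + 1)) a))
    have h12 := (σ (((A.flip * σ) ^ (u + 1)) a)).ok.2
    rw [h8, h5] at h10 h11 h12
    change 1 ≤ (σ (((A.flip * σ) ^ (u + 1)) a)).i + 0 at h12
    change (A.flip (σ (((A.flip * σ) ^ (u + 1)) a))).i = (σ (((A.flip * σ) ^ (u + 1)) a)).i - 1 at h10
    refine ⟨by rw [h9, h6, h3], ?_, h11⟩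
    rw [h10, h7]
    rw [h7] at h12
    omega

theorem WLK : WLK_stmt := by
  classical
  intro X A σ hσ h2 a
  cases hb : (σ a).b with
  | true =>
    have hC := WLK_pos A σ hσ h2 a hb
    have hex : ∃ u, 1 ≤ u ∧ (σ (((A.flip * σ) ^ u) a)).x ≠ (((A.flip * σ) ^ u) a).x := by
      by_contra hne
      push Not at hne
      obtain ⟨h3, h4, -⟩ := hC (A.len (σ a).x) (fun v hv _ => hne v hv)
      have h5 := ray_lt (((A.flip * σ) ^ (A.len (σ a).x + 1)) a)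
      rw [h3, h4] at h5
      omega
    obtain ⟨ht1, ht2⟩ := Nat.find_spec hex
    have hmin : ∀ v, 1 ≤ v → v < Nat.find hex → (σ (((A.flip * σ) ^ v) a)).x = (((A.flip * σ) ^ v) a).x := by
      intro v hv1 hv2
      by_contra hv3
      exact Nat.find_min hex hv2 ⟨hv1, hv3⟩
    generalize Nat.find hex = t at ht1 ht2 hmin
    obtain ⟨t, rfl⟩ : ∃ t', t = t' + 1 := ⟨t - 1, by omega⟩
    obtain ⟨h3, h4, h5⟩ := hC t hmin
    refine ⟨t + 1, ht1, ⟨h3, by rw [h4]; omega, ?_, ?_, ht2, ?_⟩, ?_⟩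
    · rw [h5, h4]
      exact (decide_eq_false (by omega)).symm
    · rw [hb, h4]
      exact (decide_eq_true (by omega)).symm
    · intro r hr1 hr2 hr3
      rw [h4] at hr2
      have h6 : (σ a).i < r.i ∧ r.i < (σ a).i + (t + 1) := by
        rcases hr2 with h | h
        · exact h
        · omega
      rw [decide_eq_false (by omega)] at hr3
      obtain ⟨v, hv⟩ : ∃ v, r.i = (σ a).i + (v + 1) := ⟨r.i - (σ a).i - 1, by omega⟩
      obtain ⟨h7, h8, h9⟩ := hC v (fun w hw1 hw2 => hmin w hw1 (by omega))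
      have h10 : ((A.flip * σ) ^ (v + 1)) a = r :=
        ArcFamily.Ray.ext (by rw [h7, hr1, h3]) (by rw [h8, hv]) (by rw [h9, hr3])
      have h11 := hmin (v + 1) (by omega) (by omega)
      rw [h10] at h11
      exact ⟨h11, WLK_str A σ hσ h2 r h11⟩
    · intro u hu1 hu2
      obtain ⟨u, rfl⟩ : ∃ u', u = u' + 1 := ⟨u - 1, by omega⟩
      obtain ⟨h7, -, -⟩ := hC u (fun w hw1 hw2 => hmin w hw1 (by omega))
      exact ⟨h7, by rw [hmin (u + 1) hu1 hu2, h7]⟩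
  | false =>
    have hC := WLK_neg A σ hσ h2 a hb
    have hex : ∃ u, 1 ≤ u ∧ (σ (((A.flip * σ) ^ u) a)).x ≠ (((A.flip * σ) ^ u) a).x := by
      by_contra hne
      push Not at hne
      obtain ⟨h3, h4, -⟩ := hC (σ a).i (fun v hv _ => hne v hv)
      omega
    obtain ⟨ht1, ht2⟩ := Nat.find_spec hex
    have hmin : ∀ v, 1 ≤ v → v < Nat.find hex → (σ (((A.flip * σ) ^ v) a)).x = (((A.flip * σ) ^ v) a).x := by
      intro v hv1 hv2
      by_contra hv3
      exact Nat.find_min hex hv2 ⟨hv1, hv3⟩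
    generalize Nat.find hex = t at ht1 ht2 hmin
    obtain ⟨t, rfl⟩ : ∃ t', t = t' + 1 := ⟨t - 1, by omega⟩
    obtain ⟨h3, h4, h5⟩ := hC t hmin
    refine ⟨t + 1, ht1, ⟨h3, by omega, ?_, ?_, ht2, ?_⟩, ?_⟩
    · rw [h5]
      exact (decide_eq_true (by omega)).symm
    · rw [hb]
      exact (decide_eq_false (by omega)).symm
    · intro r hr1 hr2 hr3
      have h6 : r.i < (σ a).i ∧ (σ a).i < r.i + (t + 1) := by
        rcases hr2 with h | h
        · omega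
        · omega
      rw [decide_eq_true (by omega)] at hr3
      obtain ⟨v, hv⟩ : ∃ v, r.i + (v + 1) = (σ a).i := ⟨(σ a).i - r.i - 1, by omega⟩
      obtain ⟨h7, h8, h9⟩ := hC v (fun w hw1 hw2 => hmin w hw1 (by omega))
      have h10 : ((A.flip * σ) ^ (v + 1)) a = r :=
        ArcFamily.Ray.ext (by rw [h7, hr1, h3]) (by omega) (by rw [h9, hr3])
      have h11 := hmin (v + 1) (by omega) (by omega)
      rw [h10] at h11
      exact ⟨h11, WLK_str A σ hσ h2 r h11⟩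
    · intro u hu1 hu2
      obtain ⟨u, rfl⟩ : ∃ u', u = u' + 1 := ⟨u - 1, by omega⟩
      obtain ⟨h7, -, -⟩ := hC u (fun w hw1 hw2 => hmin w hw1 (by omega))
      exact ⟨h7, by rw [hmin (u + 1) hu1 hu2, h7]⟩

end Pool.Agent.NTA
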